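import Pool.Agent.Helper97.FS.Stmts

/-!
MP_c726b9_an, module IDB: square mean of the boundary terms (Parseval).
-/

set_option autoImplicit false

namespace Pool.Agent.Helper97.FS

open Finset MeasureTheory Filter Topology
open scoped ComplexConjugate
open Pool.Agent.Helper97.Sub

lemma x_idb_int (n : ℤ) : ∫ t : AddCircle (1 : ℝ), fourier n t ∂AddCircle.haarAddCircle =
    if n = 0 then (1 : ℂ) else 0 := by
  have h := congrFun (fourierCoeff_fourier (T := (1 : ℝ)) n) 0
  simp only [fourierCoeff, neg_zero, fourier_zero, one_smul, Pi.single_apply] at h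
  rw [h]
  simp only [eq_comm]

lemma x_idb_zc (l : ℕ) (ω : AddCircle (1 : ℝ)) : zc ω ^ l = fourier (-(l : ℤ)) ω := by
  unfold zc
  rw [← map_pow, fourier_neg]
  congr 1
  rw [fourier_apply, fourier_apply]
  simp only [one_smul, natCast_zsmul]
  rw [AddCircle.toCircle_nsmul]
  simp

lemma x_idb_pars (S : Finset ℕ) (b : ℕ → ℂ) :
    ∫ ω, ‖∑ l ∈ S, b l * zc ω ^ l‖ ^ 2 ∂AddCircle.haarAddCircle = ∑ l ∈ S, ‖b l‖ ^ 2 := by
  have e1 : ∀ ω : AddCircle (1 : ℝ), ((‖∑ l ∈ S, b l * zc ω ^ l‖ ^ 2 : ℝ) : ℂ)
      = ∑ l ∈ S, ∑ l' ∈ S, b l * conj (b l') * fourier ((l' : ℤ) - l) ω := by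
    intro ω
    rw [Complex.ofReal_pow, ← Complex.mul_conj', map_sum, sum_mul_sum]
    refine sum_congr rfl fun l _ => sum_congr rfl fun l' _ => ?_
    rw [x_idb_zc, x_idb_zc, map_mul, fourier_neg, fourier_neg, Complex.conj_conj, sub_eq_add_neg,
      fourier_add, fourier_neg]
    ring
  have e2 : ((∫ ω, ‖∑ l ∈ S, b l * zc ω ^ l‖ ^ 2 ∂AddCircle.haarAddCircle : ℝ) : ℂ)
      = ((∑ l ∈ S, ‖b l‖ ^ 2 : ℝ) : ℂ) := by
    rw [← integral_complex_ofReal]
    simp only [e1]
    have hi : ∀ l ∈ S, ∀ l' ∈ S, Integrable (fun ω : AddCircle (1 : ℝ) =>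
        b l * conj (b l') * (fourier ((l' : ℤ) - l) ω : ℂ)) AddCircle.haarAddCircle := by
      intro l _ l' _
      exact ((fourier ((l' : ℤ) - l)).continuous.integrable_of_hasCompactSupport
        (HasCompactSupport.of_compactSpace _)).const_mul _
    rw [integral_finsetSum _ fun l hl => integrable_finsetSum _ fun l' hl' => hi l hl l' hl']
    rw [Complex.ofReal_sum]
    refine sum_congr rfl fun l hl => ?_
    rw [integral_finsetSum _ fun l' hl' => hi l hl l' hl']
    simp only [integral_const_mul, x_idb_int]
    rw [sum_eq_single l]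
    · rw [sub_self, if_pos rfl, mul_one, Complex.mul_conj']
      push_cast
      rfl
    · intro l' _ hne
      rw [if_neg (by
        intro h
        apply hne
        have : (l' : ℤ) = l := by omega
        exact_mod_cast this), mul_zero]
    · intro h
      exact absurd hl h
  exact_mod_cast e2

lemma x_idb_bound (S : Finset ℕ) (b : ℕ → ℂ) {B : ℝ} (hb : ∀ l ∈ S, ‖b l‖ ≤ B) {n : ℝ}
    (hn : (#S : ℝ) ≤ n) (hB : 0 ≤ B) :
    ∫ ω, ‖∑ l ∈ S, b l * zc ω ^ l‖ ^ 2 ∂AddCircle.haarAddCircle ≤ n * B ^ 2 := by
  rw [x_idb_pars]
  calc ∑ l ∈ S, ‖b l‖ ^ 2 ≤ ∑ l ∈ S, B ^ 2 :=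
        sum_le_sum fun l hl => pow_le_pow_left₀ (norm_nonneg _) (hb l hl) 2
    _ = (#S : ℝ) * B ^ 2 := by rw [sum_const, nsmul_eq_mul]
    _ ≤ n * B ^ 2 := by gcongr

variable {d : ℕ}

lemma x_idb_struct (τ : Fin d → List (Fin d)) (G : List (Fin d) → ℂ) (w : ℕ) (B : ℝ) (hB : 0 ≤ B)
    (hG : ∀ v : List (Fin d), v.length = w → ‖G v‖ ≤ B) (V : List (Fin d)) :
    ∃ (S : Finset ℕ) (b : ℕ → ℂ), #S ≤ w * V.length ∧ (∀ l ∈ S, ‖b l‖ ≤ B) ∧
      ∀ z : ℂ, TS G w z (V.flatMap τ) -
        WS (fun c => z ^ (τ c).length) (fun c => TS G w z (τ c)) V = ∑ l ∈ S, b l * z ^ l := by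
  induction V with
  | nil =>
    refine ⟨∅, fun _ => 0, by simp, by simp, ?_⟩
    intro z
    simp [TS, PS, WS]
  | cons c V ih =>
    obtain ⟨S, b, hS, hb, h⟩ := ih
    set U := τ c with hU
    set R := V.flatMap τ with hR
    have hfl : (c :: V).flatMap τ = U ++ R := by
      simp [hU, hR]
    set S1 : Finset ℕ := (range U.length).filter (fun l => U.length < l + w) with hS1
    have hS1c : #S1 ≤ w := by
      have hsub : S1 ⊆ Ico (U.length - w) U.length := by
        intro l hl
        rw [hS1, mem_filter, mem_range] at hl
        rw [mem_Ico]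
        omega
      refine (card_le_card hsub).trans ?_
      rw [Nat.card_Ico]
      omega
    set S2 : Finset ℕ := S.map (addRightEmbedding U.length) with hS2
    have hdis : Disjoint S1 S2 := by
      rw [disjoint_left]
      intro l h1 h2
      rw [hS1, mem_filter, mem_range] at h1
      rw [hS2, Finset.mem_map] at h2
      obtain ⟨m, _, hm⟩ := h2
      rw [addRightEmbedding_apply] at hm
      omega
    set b1 : ℕ → ℂ := fun l => if l + w ≤ (U ++ R).length then G (((U ++ R).drop l).take w) else 0
      with hb1
    refine ⟨S1 ∪ S2, fun l => if l < U.length then b1 l else b (l - U.length), ?_, ?_, ?_⟩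
    · calc #(S1 ∪ S2) ≤ #S1 + #S2 := card_union_le _ _
        _ ≤ w + w * V.length := by
            rw [hS2, card_map]
            exact Nat.add_le_add hS1c hS
        _ = w * (c :: V).length := by
            rw [List.length_cons]
            ring
    · intro l hl
      by_cases hlt : l < U.length
      · simp only [if_pos hlt, hb1]
        split_ifs with h2
        · apply hG
          rw [List.length_take, List.length_drop]
          omega
        · simpa using hB
      · simp only [if_neg hlt]
        rw [mem_union] at hl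
        rcases hl with hl | hl
        · rw [hS1, mem_filter, mem_range] at hl
          exact absurd hl.1 hlt
        · rw [hS2, Finset.mem_map] at hl
          obtain ⟨m, hm, rfl⟩ := hl
          rw [addRightEmbedding_apply, Nat.add_sub_cancel]
          exact hb m hm
    · intro z
      have h1 : TS G w z (U ++ R) = PS G w z (U ++ R) U.length + z ^ U.length * TS G w z R := by
        unfold TS
        rw [List.length_append, PS_append_right]
      have h2 : PS G w z (U ++ R) U.length - TS G w z U = ∑ l ∈ S1, b1 l * z ^ l := by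
        unfold TS PS
        rw [← sum_sub_distrib, hS1, sum_filter]
        refine sum_congr rfl fun l hl => ?_
        rw [mem_range] at hl
        by_cases hlt : U.length < l + w
        · rw [if_pos hlt, if_neg (show ¬ (l + w ≤ U.length) by omega), sub_zero]
          simp only [hb1]
          split_ifs
          · rfl
          · rw [zero_mul]
        · rw [if_neg hlt, if_pos (show l + w ≤ U.length by omega), if_pos (by
            rw [List.length_append]
            omega)]
          have h3 : ((U ++ R).drop l).take w = (U.drop l).take w := by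
            rw [List.drop_append_of_le_length (by omega), List.take_append_of_le_length]
            rw [List.length_drop]
            omega
          rw [h3, sub_self]
      have h4 : WS (fun c => z ^ (τ c).length) (fun c => TS G w z (τ c)) (c :: V)
          = TS G w z U + z ^ U.length *
            WS (fun c => z ^ (τ c).length) (fun c => TS G w z (τ c)) V := rfl
      have h5 : ∑ l ∈ S1 ∪ S2, (if l < U.length then b1 l else b (l - U.length)) * z ^ l
          = ∑ l ∈ S1, b1 l * z ^ l + z ^ U.length * ∑ l ∈ S, b l * z ^ l := by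
        rw [sum_union hdis]
        congr 1
        · refine sum_congr rfl fun l hl => ?_
          rw [hS1, mem_filter, mem_range] at hl
          rw [if_pos hl.1]
        · rw [hS2, sum_map, mul_sum]
          refine sum_congr rfl fun l _ => ?_
          rw [addRightEmbedding_apply, if_neg (by omega), Nat.add_sub_cancel, pow_add]
          ring
      rw [hfl, h4, h5, h1, ← h2, ← h z]
      ring

/-- square mean of the boundary terms -/
theorem st_IDB : ST_IDB := by
  intro d τ G w B hB hG V
  constructor
  · obtain ⟨S, b, hS, hb, h⟩ := x_idb_struct τ G w B hB hG V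
    simp only [h]
    have := x_idb_bound S b hb (n := w * V.length) (by exact_mod_cast hS) hB
    linarith
  · have h : ∀ z : ℂ, TS G w z V = ∑ l ∈ range V.length,
        (if l + w ≤ V.length then G ((V.drop l).take w) else 0) * z ^ l := by
      intro z
      unfold TS PS
      refine sum_congr rfl fun l _ => ?_
      split_ifs
      · rfl
      · rw [zero_mul]
    simp only [h]
    have := x_idb_bound (range V.length)
      (fun l => if l + w ≤ V.length then G ((V.drop l).take w) else 0) (B := B) (by
        intro l _
        split_ifs with h2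
        · apply hG
          rw [List.length_take, List.length_drop]
          omega
        · simpa using hB) (n := V.length) (by simp) hB
    linarith

end Pool.Agent.Helper97.FS
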